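import Pool.Agent.H129.PMProof

set_option autoImplicit false

namespace Pool.Agent.Results.MP_439cda_lc.MatchingPairNPComplete

open Pool.Agent.NPC Pool.Agent.NPC.PM129

/-- **COL-2PM is NP-complete.** (1) It is in `NP`. (2) Every language in `NP` has a polynomial-time
many-one reduction to it all of whose values are simple 2-edge-coloured bipartite graphs. (3) There
is a polynomial-time algorithm which decides COL-2PM for all 2-edge-coloured bipartite graphs if and
only if `P = NP`. -/
theorem result : InNPP COL2PM ∧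
    (∀ L : Set (List Bool), InNP L → ∃ f : List Bool → Bip, PolyTime (fun x => bits (f x)) ∧
      (∀ x, IsBip (f x)) ∧ ∀ x, x ∈ L ↔ COL2PM (f x)) ∧
    ((∃ A : List Bool → List Bool, PolyTime A ∧
      ∀ B : Bip, IsBip B → (A (bits B) = [true] ↔ COL2PM B)) ↔
      ∀ L : Set (List Bool), InNP L → InP L) := by
  have hard : ∀ L : Set (List Bool), InNP L → ∃ f : List Bool → Bip,
      PolyTime (fun x => bits (f x)) ∧ (∀ x, IsBip (f x)) ∧ ∀ x, x ∈ L ↔ COL2PM (f x) := by
    intro L hL
    obtain ⟨f, hf, hpr, hfL⟩ := hardPr_COL2PM L hL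
    exact ⟨f, PC.toPolyTime hf, hpr, hfL⟩
  refine ⟨inNP, hard, ?_, ?_⟩
  · rintro ⟨A, hA, h⟩ L hL
    obtain ⟨f, hf, hpr, hfL⟩ := hard L hL
    exact ⟨fun x => A (bits (f x)), H642R2.TMSim.polyTime_comp hA hf, fun x =>
      (hfL x).trans (h (f x) (hpr x)).symm⟩
  · intro h
    obtain ⟨A, hA, hA'⟩ := h _ inNP
    exact ⟨A, hA, fun I _ => by rw [← hA', bits_mem_lang]⟩

end Pool.Agent.Results.MP_439cda_lc.MatchingPairNPComplete
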